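import Pool.Agent.W908.S.S10

/-! Polynomial space is contained in exponential time, relative to every oracle. -/

set_option autoImplicit false

namespace Pool.Agent.W908.SP

open Pool.Agent.NPC Pool.Agent.H620R2.Gauge Pool.Agent.H622R2
open Pool.Agent.H591R3.PHG (IsSig)

/-- one step, for the answer `b` -/
def pst (M : SAlg) (p : Polynomial ℕ) (x s : List Bool) (b : Bool) : List Bool :=
  if (M.act (pairBits x s)).head? = some false then
    (M.next (pairBits x (b :: s))).take (p.eval x.length) else s

/-- the memory after the answers `a` -/
def pfin (M : SAlg) (p : Polynomial ℕ) (x a : List Bool) : List Bool := a.foldl (pst M p x) []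

/-- the next action -/
def pD (M : SAlg) (p : Polynomial ℕ) (y : List Bool) : List Bool :=
  if (M.act (pairBits (unpair y).1 (pfin M p (unpair y).1 (unpair y).2))).head? = some false then
    M.act (pairBits (unpair y).1 (pfin M p (unpair y).1 (unpair y).2)) else
    true :: (M.act (pairBits (unpair y).1 (pfin M p (unpair y).1 (unpair y).2))).tail

theorem pfin_len (M : SAlg) (p : Polynomial ℕ) (x a : List Bool) :
    (pfin M p x a).length ≤ p.eval x.length := by
  unfold pfin
  induction a using List.reverseRecOn with
  | nil => simp
  | append_singleton a b ih =>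
    rw [List.foldl_append]
    simp only [List.foldl_cons, List.foldl_nil]
    unfold pst
    split_ifs
    · rw [List.length_take]
      exact min_le_left _ _
    · exact ih

theorem poly_pst (M : SAlg) (p : Polynomial ℕ) :
    Poly (fun t : (List Bool × List Bool) × List Bool × Bool => pst M p t.1.1 t.2.1 t.2.2) := by
  have hx : Poly (fun t : (List Bool × List Bool) × List Bool × Bool => t.1.1) :=
    Poly.fst (Poly.fst Poly.id)
  have hs : Poly (fun t : (List Bool × List Bool) × List Bool × Bool => t.2.1) :=
    Poly.fst (Poly.snd Poly.id)
  have hb : Poly (fun t : (List Bool × List Bool) × List Bool × Bool => t.2.2) :=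
    Poly.snd (Poly.snd Poly.id)
  have h1 : Poly (fun t : (List Bool × List Bool) × List Bool × Bool =>
      M.act (pairBits t.1.1 t.2.1)) := (poly_of_polyTime M.act_poly).comp (poly_pairBits hx hs)
  have h2 : Poly (fun t : (List Bool × List Bool) × List Bool × Bool =>
      M.next (pairBits t.1.1 (t.2.2 :: t.2.1))) :=
    (poly_of_polyTime M.next_poly).comp (poly_pairBits hx (Poly.cons hb hs))
  exact Poly.ite (Poly.decide_eq (Poly.head? h1) (NPC.Poly.const _))
    (R1.poly_take h2 ((UPoly.length hx).eval p)) hs

theorem poly_pfin (M : SAlg) (p : Polynomial ℕ) :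
    Poly (fun t : List Bool × List Bool => pfin M p t.1 t.2) := by
  refine Poly.foldl (l := fun t : List Bool × List Bool => t.2)
    (s := fun _ => ([] : List Bool)) (F := fun t => pst M p t.1)
    (Poly.snd Poly.id) (NPC.Poly.const _) (poly_pst M p)
    (Polynomial.C 4 * p + Polynomial.C 5) ?_
  intro t k _
  obtain ⟨x, a⟩ := t
  change sz (pfin M p x (a.take k)) ≤ _
  have h1 := pfin_len M p x (a.take k)
  have h2 := sz_listBool_le (pfin M p x (a.take k))
  have h3 := length_lt_sz x
  have h4 : p.eval x.length ≤ p.eval (sz (x, a)) := eval_mono p (by rw [sz_pair]; omega)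
  simp only [Polynomial.eval_add, Polynomial.eval_mul, Polynomial.eval_C]
  omega

theorem poly_pD (M : SAlg) (p : Polynomial ℕ) : Poly (pD M p) := by
  have h1 : Poly (fun y : List Bool =>
      M.act (pairBits (unpair y).1 (pfin M p (unpair y).1 (unpair y).2))) :=
    (poly_of_polyTime M.act_poly).comp (poly_pairBits (Poly.fst poly_unpair)
      ((poly_pfin M p).comp poly_unpair))
  exact Poly.ite (Poly.decide_eq (Poly.head? h1) (NPC.Poly.const _)) h1
    (Poly.cons (NPC.Poly.const true) (Poly.tail h1))

/-- the algorithm -/
noncomputable def pAlg (M : SAlg) (p : Polynomial ℕ) : Alg where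
  D := pD M p
  poly := polyTime_of_poly_list (poly_pD M p)
  p := p + 2

/-- the next memory -/
def gst (M : SAlg) (O : Oracle) (x s : List Bool) : List Bool :=
  if (M.act (pairBits x s)).head? = some false then
    M.next (pairBits x (O (M.act (pairBits x s)).tail :: s)) else s

theorem head_tail {l : List Bool} (h : l.head? = some false) : l = false :: l.tail := by
  cases l with
  | nil => simp at h
  | cons b l => simp at h; simp [h]

theorem run_pAlg {M : SAlg} {p : Polynomial ℕ} {O : Oracle} {x : List Bool}
    (hM : ∀ s, M.Reach O x s → s.length ≤ p.eval x.length) : ∀ (n : ℕ) (a : List Bool) (j : ℕ),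
    M.Reach O x (pfin M p x a) →
    (∀ i < j, (M.act (pairBits x ((gst M O x)^[i] (pfin M p x a)))).head? = some false) →
    (M.act (pairBits x ((gst M O x)^[j] (pfin M p x a)))).head? ≠ some false → j < n →
    (pAlg M p).run O x n a =
      some (M.act (pairBits x ((gst M O x)^[j] (pfin M p x a)))).tail := by
  intro n
  induction n with
  | zero => intro a j _ _ _ h; omega
  | succ n ih =>
    intro a j hr hq hh hj
    have hD : (pAlg M p).D (pairBits x a) = if (M.act (pairBits x (pfin M p x a))).head? =
        some false then M.act (pairBits x (pfin M p x a)) else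
        true :: (M.act (pairBits x (pfin M p x a))).tail := by
      show pD M p (pairBits x a) = _
      unfold pD
      rw [unpair_pairBits]
    cases j with
    | zero =>
      simp only [Function.iterate_zero, id_eq] at hh ⊢
      rw [if_neg hh] at hD
      rw [Alg.run, hD]
    | succ j =>
      have h0 := hq 0 (Nat.succ_pos j)
      simp only [Function.iterate_zero, id_eq] at h0
      rw [if_pos h0] at hD
      have h1 := head_tail h0
      have h2 : pfin M p x (a ++ [O (M.act (pairBits x (pfin M p x a))).tail]) =
          gst M O x (pfin M p x a) := by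
        have h3 : pfin M p x (a ++ [O (M.act (pairBits x (pfin M p x a))).tail]) =
            pst M p x (pfin M p x a) (O (M.act (pairBits x (pfin M p x a))).tail) := by
          unfold pfin
          rw [List.foldl_append]
          rfl
        rw [h3]
        unfold pst gst
        rw [if_pos h0, if_pos h0]
        exact List.take_of_length_le (hM _ (SAlg.Reach.step hr h1))
      have hr' : M.Reach O x (pfin M p x (a ++ [O (M.act (pairBits x (pfin M p x a))).tail])) := by
        rw [h2]
        unfold gst
        rw [if_pos h0]
        exact SAlg.Reach.step hr h1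
      have h4 := ih (a ++ [O (M.act (pairBits x (pfin M p x a))).tail]) j hr'
        (fun i hi => by
          rw [h2, ← Function.iterate_succ_apply]
          exact hq (i + 1) (by omega))
        (by
          rw [h2, ← Function.iterate_succ_apply]
          exact hh) (by omega)
      rw [Alg.run, hD, h1]
      simp only
      rw [← h1] at *
      rw [h4, h2, ← Function.iterate_succ_apply]

theorem reach_iter {M : SAlg} {O : Oracle} {x s : List Bool} (h : M.Reach O x s) :
    ∃ j, (gst M O x)^[j] [] = s := by
  induction h with
  | start => exact ⟨0, rfl⟩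
  | step hr hq ih =>
    obtain ⟨j, hj⟩ := ih
    refine ⟨j + 1, ?_⟩
    rw [Function.iterate_succ_apply', hj]
    unfold gst
    rw [hq]
    simp

theorem iter_reach {M : SAlg} {O : Oracle} {x : List Bool} (j : ℕ) :
    M.Reach O x ((gst M O x)^[j] []) := by
  induction j with
  | zero => exact SAlg.Reach.start
  | succ j ih =>
    rw [Function.iterate_succ_apply']
    generalize (gst M O x)^[j] [] = s at ih
    unfold gst
    split_ifs with h
    · exact SAlg.Reach.step ih (head_tail h)
    · exact ih

theorem isEXP_of_isPSPACE {O : Oracle} {L : Set (List Bool)} (h : IsPSPACE O L) : IsEXP O L := by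
  classical
  obtain ⟨M, p, hM⟩ := h
  refine ⟨pAlg M p, fun x => ?_⟩
  obtain ⟨hlen, s, z, hr, hact, hxz⟩ := hM x
  obtain ⟨m, hm⟩ := reach_iter hr
  have hex : ∃ j, (M.act (pairBits x ((gst M O x)^[j] []))).head? ≠ some false :=
    ⟨m, by rw [hm, hact]; simp⟩
  set j := Nat.find hex with hj
  have hj1 : (M.act (pairBits x ((gst M O x)^[j] []))).head? ≠ some false := Nat.find_spec hex
  have hj2 : ∀ i < j, (M.act (pairBits x ((gst M O x)^[i] []))).head? = some false := by
    intro i hi
    by_contra hcon
    exact Nat.find_min hex hi hcon
  have hfix : ∀ d, (gst M O x)^[d] ((gst M O x)^[j] []) = (gst M O x)^[j] [] := by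
    intro d
    induction d with
    | zero => rfl
    | succ d ih =>
      rw [Function.iterate_succ_apply', ih]
      generalize hs : (gst M O x)^[j] [] = s at hj1
      unfold gst
      rw [if_neg hj1]
  have hjm : j ≤ m := Nat.find_min' hex (by rw [hm, hact]; simp)
  have hs : (gst M O x)^[j] [] = s := by
    obtain ⟨d, hd⟩ := Nat.exists_eq_add_of_le hjm
    rw [← hm, hd, Nat.add_comm, Function.iterate_add_apply, hfix]
  have hcard : j + 1 ≤ 2 ^ (p.eval x.length + 1) := by
    have h1 : (Finset.range (j + 1)).card ≤ (W_strs (p.eval x.length)).card := by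
      refine Finset.card_le_card_of_injOn (fun i => (gst M O x)^[i] []) ?_ ?_
      · intro i _
        exact W_mem_strs (hlen _ (iter_reach i))
      · have key : ∀ i i', i < i' → i' ≤ j → (gst M O x)^[i] [] ≠ (gst M O x)^[i'] [] := by
          intro i i' h1 h2 he
          obtain ⟨d, hd⟩ := Nat.exists_eq_add_of_le h2
          have h3 : (gst M O x)^[d + i] [] = (gst M O x)^[j] [] := by
            rw [Function.iterate_add_apply, he, ← Function.iterate_add_apply, hd, Nat.add_comm]
          have h4 := hj2 (d + i) (by omega)
          rw [h3] at h4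
          exact hj1 h4
        intro i hi i' hi' he
        have h1 := Finset.mem_range.1 hi
        have h2 := Finset.mem_range.1 hi'
        rcases Nat.lt_trichotomy i i' with h3 | h3 | h3
        · exact absurd he (key i i' h3 (by omega))
        · exact h3
        · exact absurd he.symm (key i' i h3 (by omega))
    rw [Finset.card_range] at h1
    exact h1.trans (W_card_strs _)
  refine ⟨z, ?_, hxz⟩
  have h2 : pfin M p x [] = [] := rfl
  have h1 := run_pAlg hlen (2 ^ (pAlg M p).p.eval x.length) [] j
    (by rw [h2]; exact SAlg.Reach.start) (by rw [h2]; exact hj2) (by rw [h2]; exact hj1) (by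
      have h3 : (pAlg M p).p.eval x.length = p.eval x.length + 2 := by
        show (p + 2).eval x.length = _
        simp
      rw [h3]
      have h4 : 2 ^ (p.eval x.length + 1) ≤ 2 ^ (p.eval x.length + 2) :=
        Nat.pow_le_pow_right (by norm_num) (by omega)
      omega)
  rw [h1, h2, hs, hact]
  rfl

/-- An oracle with `PSPACE = EXP = SPP` and an infinite polynomial hierarchy. -/
theorem main2 : ∃ O : Oracle,
    (∀ L : Set (List Bool), IsPSPACE O L ∨ IsEXP O L → IsSPP O L) ∧
    ∀ k : ℕ, ∃ L : Set (List Bool), IsSig O (k + 1) L ∧ ¬ IsSig O k L := by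
  obtain ⟨O, h1, h2⟩ := main
  exact ⟨O, fun L hL => h1 L (hL.elim isEXP_of_isPSPACE id), h2⟩

end Pool.Agent.W908.SP
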